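import Pool.Agent.H65.CRG.TL

set_option autoImplicit false

open Complex Set MeasureTheory Pool.Agent.H65.CRZ Pool.Agent.H65.CRG

namespace Pool.Agent.H43.CRG

theorem alg (w L F : ℂ) (i : ℕ) (hw : w ≠ 0) (hL : L ≠ 0) :
    w / L * I * (1 / (w / L) ^ (i + 1) * F) = (I * L ^ i) * (F / w ^ i) := by
  rw [div_pow, pow_succ, pow_succ]
  field_simp

theorem term (f : ℂ → ℂ) (s : ℂ) (r L : ℝ) (hr : 0 < r) (hL : 0 < L)
    (hf : ∀ z ∈ Metric.closedBall s (r / L), DifferentiableAt ℂ f z) (i : ℕ) :
    ∫ φ in (0 : ℝ)..(2 * Real.pi), f (s + r * cexp (φ * I) / L) / (r * cexp (φ * I)) ^ i =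
      2 * Real.pi / i.factorial / (L : ℂ) ^ i * iteratedDeriv i f s := by
  have hR : 0 < r / L := div_pos hr hL
  have hd : DifferentiableOn ℂ f (Metric.closedBall s (r / L)) :=
    fun z hz => (hf z hz).differentiableWithinAt
  have h := hd.circleIntegral_one_div_sub_center_pow_smul hR i
  rw [circleIntegral] at h
  have hLc : (L : ℂ) ≠ 0 := by exact_mod_cast hL.ne'
  have hrc : (r : ℂ) ≠ 0 := by exact_mod_cast hr.ne'
  have hcong : ∀ φ : ℝ, deriv (circleMap s (r / L)) φ •
      (fun z => (1 / (z - s) ^ (i + 1)) • f z) (circleMap s (r / L) φ) =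
      (I * (L : ℂ) ^ i) * (f (s + r * cexp (φ * I) / L) / (r * cexp (φ * I)) ^ i) := by
    intro φ
    have he : cexp (φ * I) ≠ 0 := Complex.exp_ne_zero _
    have h1 : circleMap s (r / L) φ = s + r * cexp (φ * I) / L := by
      simp only [circleMap]; push_cast; ring
    have h2 : deriv (circleMap s (r / L)) φ = r / L * cexp (φ * I) * I := by
      rw [deriv_circleMap]; simp only [circleMap]; push_cast; ring
    simp only [smul_eq_mul]
    rw [h1, h2]
    have h3 : s + r * cexp (φ * I) / L - s = r * cexp (φ * I) / L := by ring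
    rw [h3]
    have h4 := alg (r * cexp (φ * I)) L (f (s + r * cexp (φ * I) / L)) i
      (mul_ne_zero hrc he) hLc
    rw [← h4]; ring
  rw [intervalIntegral.integral_congr (g := fun φ : ℝ => (I * (L : ℂ) ^ i) *
    (f (s + r * cexp (φ * I) / L) / (r * cexp (φ * I)) ^ i)) (fun φ _ => hcong φ),
    intervalIntegral.integral_const_mul] at h
  have hI : I * (L : ℂ) ^ i ≠ 0 := mul_ne_zero I_ne_zero (pow_ne_zero _ hLc)
  refine mul_left_cancel₀ hI ?_
  rw [h, smul_eq_mul]
  have hfac : (i.factorial : ℂ) ≠ 0 := by exact_mod_cast i.factorial_ne_zero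
  field_simp

theorem pf_CK : T_CK := by
  intro N m f s r L hr hL hf
  have hrc : (r : ℂ) ≠ 0 := by exact_mod_cast hr.ne'
  have hpi : (Real.pi : ℂ) ≠ 0 := by exact_mod_cast Real.pi_ne_zero
  have hcont : ∀ i, ContinuousOn (fun φ : ℝ => f (s + r * cexp (φ * I) / L) /
      (r * cexp (φ * I)) ^ i) (uIcc 0 (2 * Real.pi)) := by
    intro i
    refine Continuous.continuousOn ?_
    refine Continuous.div ?_ (by fun_prop) ?_
    · rw [continuous_iff_continuousAt]
      intro φ
      have hmem : s + r * cexp (φ * I) / L ∈ Metric.closedBall s (r / L) := by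
        rw [Metric.mem_closedBall, dist_eq_norm]
        have : s + r * cexp (φ * I) / L - s = r * cexp (φ * I) / L := by ring
        rw [this, norm_div, norm_mul, Complex.norm_exp_ofReal_mul_I, Complex.norm_real,
          Complex.norm_real, Real.norm_eq_abs, Real.norm_eq_abs, abs_of_pos hr, abs_of_pos hL,
          mul_one]
      have h1 := (hf _ hmem).continuousAt
      have h2 : ContinuousAt (fun φ : ℝ => s + r * cexp (φ * I) / L) φ := by fun_prop
      exact ContinuousAt.comp (f := fun φ : ℝ => s + r * cexp (φ * I) / L) (g := f) h1 h2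
    · intro φ
      exact pow_ne_zero _ (mul_ne_zero hrc (Complex.exp_ne_zero _))
  have hsum : ∀ φ : ℝ, f (s + r * cexp (φ * I) / L) * kn N m (r * cexp (φ * I)) =
      ∑ i ∈ Finset.range (2 * N + 1), ((qm N m i * i.factorial : ℝ) : ℂ) *
        (f (s + r * cexp (φ * I) / L) / (r * cexp (φ * I)) ^ i) := by
    intro φ
    rw [kn, Finset.mul_sum]
    refine Finset.sum_congr rfl fun i _ => ?_
    ring
  rw [intervalIntegral.integral_congr (fun φ _ => hsum φ), intervalIntegral.integral_finsetSum,
    Finset.mul_sum]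
  · refine Finset.sum_congr rfl fun i _ => ?_
    rw [intervalIntegral.integral_const_mul, term f s r L hr hL hf i]
    have hfac : (i.factorial : ℂ) ≠ 0 := by exact_mod_cast i.factorial_ne_zero
    push_cast
    field_simp
  · intro i _
    exact ((hcont i).intervalIntegrable).const_mul _

end Pool.Agent.H43.CRG
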